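import Mathlib
import Pool.Agent.Helper54.OMCMain
import Pool.Agent.Helper2.OS.Aff

set_option autoImplicit false

namespace Pool.Agent.Helper56.Slots.OneCircleDraft

open Pool.Agent.Helper54.OMC

/-- The determinantal conjecture of Marcus and de Oliveira holds for all normal matrices
`A = U1 diag(d1) U1*` and `B = U2 diag(d2) U2*` for which the eigenvalues of at least one of the
two matrices lie on a common line (for example, one of them is Hermitian) or on a common circle
(for example, one of them is unitary), in particular if one of them has at most three different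
eigenvalues.  There is no condition on the other matrix.

Moreover, for arbitrary spectra: fix the normal matrix `B`, the eigenvectors `U1` of `A` and all
eigenvalues of `A` except `d1 i0`, and let `N` be the set of all complex numbers `t` such that the
inclusion `det(A+B) ∈ conv {z_σ}` fails when the eigenvalue `d1 i0` is replaced by `t`.  Then `N`
is connected (possibly empty).  If all the other eigenvalues `d1 i`, `i ≠ i0`, lie on the line or
circle `C = {z : α|z|^2 + 2 Re(conj β z) + γ = 0}`, then `N` lies strictly on one side of `C`, so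
the inclusion holds for all `t` on the other closed side of `C`.  For `n ≤ 4` there always is such
a line or circle. -/
theorem result (n : Type*) [Fintype n] [DecidableEq n] (d1 d2 : n → ℂ)
    (U1 U2 : unitary (Matrix n n ℂ)) :
    ((∃ d : n → ℂ, (d = d1 ∨ d = d2) ∧
      (Collinear ℝ (Set.range d) ∨ EuclideanGeometry.Cospherical (Set.range d)
        ∨ (Set.range d).ncard ≤ 3)) →
      (U1 * Matrix.diagonal d1 * star U1 + U2 * Matrix.diagonal d2 * star U2).det
        ∈ convexHull ℝ { ∏ i, (d1 i + d2 (σ i)) | σ : Equiv.Perm n }) ∧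
    (∀ (i0 : n) (N : Set ℂ),
      N = {t : ℂ | (U1 * Matrix.diagonal (Function.update d1 i0 t) * star U1
          + U2 * Matrix.diagonal d2 * star U2).det
          ∉ convexHull ℝ { ∏ i, (Function.update d1 i0 t i + d2 (σ i)) | σ : Equiv.Perm n }} →
      IsPreconnected N ∧
      (∀ (α γ : ℝ) (β : ℂ), (α ≠ 0 ∨ β ≠ 0) →
        (∀ i, i ≠ i0 →
          α * Complex.normSq (d1 i) + 2 * (starRingEnd ℂ β * d1 i).re + γ = 0) →
        (∀ t ∈ N, α * Complex.normSq t + 2 * (starRingEnd ℂ β * t).re + γ < 0) ∨
        (∀ t ∈ N, 0 < α * Complex.normSq t + 2 * (starRingEnd ℂ β * t).re + γ)) ∧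
      (Fintype.card n ≤ 4 → ∃ (α γ : ℝ) (β : ℂ), (α ≠ 0 ∨ β ≠ 0) ∧
        ∀ i, i ≠ i0 →
          α * Complex.normSq (d1 i) + 2 * (starRingEnd ℂ β * d1 i).re + γ = 0)) := by
  refine ⟨?_, ?_⟩
  · rintro ⟨d, hd, h⟩
    have hD : DiscProp d := by
      rcases h with h | h | h
      · exact discProp_of_collinear d h
      · exact discProp_of_cospherical d h
      · exact discProp_of_ncard d h
    rcases hd with rfl | rfl
    · exact hD.hull d2 U1 U2
    · exact hD.hull' d1 U1 U2
  · rintro i0 N rfl
    exact ⟨Pool.Agent.Helper2.OS.isPreconnected_badSet i0 d1 d2 U1 U2,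
      fun α γ β hC ha => Pool.Agent.Helper2.OS.bad_oneSide i0 d1 d2 U1 U2 α γ β hC ha,
      fun hn => Pool.Agent.Helper2.OS.exists_qf i0 d1 hn⟩

end Pool.Agent.Helper56.Slots.OneCircleDraft
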